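import Pool.Agent.H126R2.CDC.Main

set_option autoImplicit false

/-!
# MP_b1bfa0_co: smallest counterexamples to the circuit double cover conjecture

Q1: no smallest counterexample to the circuit double cover conjecture has a cyclic 4-edge-cut.
The answer is yes, because every finite bridgeless graph (loops and parallel edges allowed) has a
circuit double cover: `Pool.Agent.H126R2.CDC.MGraph.exists_cdc`. That file defines `MGraph`,
`IsCircuit`, `Bridgeless` and `IsCDC`.
-/

namespace Pool.Agent.Results.MP_b1bfa0_co.NoCyclicFourCut

open Pool.Agent.H126R2.CDC

open scoped Classical in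
/-- `G` is a counterexample to the circuit double cover conjecture: every edge of `G` lies on a
circuit, but there is no finite family (multiset) of circuits such that every edge lies in exactly
two members of it. -/
def IsCounterexample {V E : Type} [Fintype V] [Fintype E] (G : MGraph V E) : Prop :=
  G.Bridgeless ∧ ¬ ∃ F : Multiset (Finset E), G.IsCDC F

/-- `G` is a smallest counterexample: it minimises the number of vertices plus the number of edges
among all counterexamples. -/
def IsSmallestCounterexample {V E : Type} [Fintype V] [Fintype E] (G : MGraph V E) : Prop :=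
  IsCounterexample G ∧ ∀ (V' E' : Type) [Fintype V'] [Fintype E'] (G' : MGraph V' E'),
    IsCounterexample G' → Fintype.card V + Fintype.card E ≤ Fintype.card V' + Fintype.card E'

open scoped Classical in
/-- The edge-cut `δ(X)`: all edges with exactly one end in `X`. -/
noncomputable def edgeCut {V E : Type} [Fintype V] [Fintype E] (G : MGraph V E) (X : Finset V) :
    Finset E :=
  Finset.univ.filter fun e => (∃ v ∈ G.ends e, v ∈ X) ∧ ∃ v ∈ G.ends e, v ∉ X

/-- The vertices `u` and `v` are in the same component of `G - T`. -/
def SameComponent {V E : Type} (G : MGraph V E) (T : Finset E) (u v : V) : Prop :=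
  Relation.ReflTransGen (fun a b => ∃ e, e ∉ T ∧ G.ends e = s(a, b)) u v

open scoped Classical in
/-- `T` is cyclic: at least two components of `G - T` contain a circuit, that is, there are two
circuits without edges in `T` and a vertex on each of them such that these two vertices are in
different components of `G - T`. -/
def IsCyclicCut {V E : Type} [Fintype V] [Fintype E] (G : MGraph V E) (T : Finset E) : Prop :=
  ∃ C D : Finset E, G.IsCircuit C ∧ G.IsCircuit D ∧ Disjoint C T ∧ Disjoint D T ∧
    ∃ e ∈ C, ∃ f ∈ D, ∃ u ∈ G.ends e, ∃ v ∈ G.ends f, ¬ SameComponent G T u v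

/-- **Q1, answer yes.** There is no counterexample to the circuit double cover conjecture, and no
smallest counterexample has a cyclic edge-cut with exactly four edges. -/
theorem result :
    (∀ (V E : Type) [Fintype V] [Fintype E] (G : MGraph V E), ¬ IsCounterexample G) ∧
      ∀ (V E : Type) [Fintype V] [Fintype E] (G : MGraph V E), IsSmallestCounterexample G →
        ∀ X : Finset V, X.Nonempty → X ≠ Finset.univ → (edgeCut G X).card = 4 →
          ¬ IsCyclicCut G (edgeCut G X) := by
  have h1 : ∀ (V E : Type) [Fintype V] [Fintype E] (G : MGraph V E), ¬ IsCounterexample G := by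
    intro V E _ _ G h
    classical
    apply h.2
    exact G.exists_cdc h.1
  exact ⟨h1, fun V E _ _ G h => absurd h.1 (h1 V E G)⟩

end Pool.Agent.Results.MP_b1bfa0_co.NoCyclicFourCut
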